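import Pool.Agent.MP_f007e6_nt.Defs
import Mathlib

-- part MP_f007e6_nt.Expansion
section

/-! Existence and uniqueness of Cantor series expansions. -/

open Filter Topology Finset

namespace Pool.Agent.MP_f007e6_nt

theorem prod_pos' {q : ℕ → ℕ} (hq : ∀ n, 2 ≤ q n) (N : ℕ) :
    (0 : ℝ) < ∏ j ∈ range N, (q j : ℝ) := by
  apply Finset.prod_pos
  intro j _
  have := hq j
  positivity

theorem partial_le {q E : ℕ → ℕ} (hq : ∀ n, 2 ≤ q n) (hE : ∀ n, E n < q n) (N : ℕ) :
    ∑ n ∈ range N, (E n : ℝ) / ∏ j ∈ range (n + 1), (q j : ℝ)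
      ≤ 1 - 1 / ∏ j ∈ range N, (q j : ℝ) := by
  induction N with
  | zero => simp
  | succ N ih =>
    rw [Finset.sum_range_succ, Finset.prod_range_succ]
    have hP := prod_pos' hq N
    have hqN : (0 : ℝ) < q N := by have := hq N; positivity
    have h1 : (E N : ℝ) + 1 ≤ q N := by exact_mod_cast hE N
    have : (E N : ℝ) / ((∏ j ∈ range N, (q j : ℝ)) * q N)
        ≤ 1 / ∏ j ∈ range N, (q j : ℝ) - 1 / ((∏ j ∈ range N, (q j : ℝ)) * q N) := by
      rw [div_sub_div _ _ hP.ne' (by positivity), div_le_div_iff₀ (by positivity) (by positivity)]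
      have : (0 : ℝ) ≤ (∏ j ∈ range N, (q j : ℝ)) * (∏ j ∈ range N, (q j : ℝ)) * q N := by
        positivity
      nlinarith
    linarith

theorem partial_le' {q E : ℕ → ℕ} (hq : ∀ n, 2 ≤ q n) (hE : ∀ n, E n < q n) (m : ℕ)
    (hm : E m ≠ q m - 1) (N : ℕ) (hN : m + 1 ≤ N) :
    ∑ n ∈ range N, (E n : ℝ) / ∏ j ∈ range (n + 1), (q j : ℝ)
      ≤ 1 - 1 / ∏ j ∈ range (m + 1), (q j : ℝ) - 1 / ∏ j ∈ range N, (q j : ℝ) := by
  induction N, hN using Nat.le_induction with
  | base =>
    rw [Finset.sum_range_succ, Finset.prod_range_succ]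
    have ih := partial_le hq hE m
    have hP := prod_pos' hq m
    have hqN : (0 : ℝ) < q m := by have := hq m; positivity
    have h0 : E m + 2 ≤ q m := by have := hE m; omega
    have h1 : (E m : ℝ) + 2 ≤ q m := by exact_mod_cast h0
    have : (E m : ℝ) / ((∏ j ∈ range m, (q j : ℝ)) * q m)
        ≤ 1 / ∏ j ∈ range m, (q j : ℝ) - 2 / ((∏ j ∈ range m, (q j : ℝ)) * q m) := by
      rw [div_sub_div _ _ hP.ne' (by positivity), div_le_div_iff₀ (by positivity) (by positivity)]
      have : (0 : ℝ) ≤ (∏ j ∈ range m, (q j : ℝ)) * (∏ j ∈ range m, (q j : ℝ)) * q m := by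
        positivity
      nlinarith
    have h2 : (2 : ℝ) / ((∏ j ∈ range m, (q j : ℝ)) * q m)
        = 1 / ((∏ j ∈ range m, (q j : ℝ)) * q m) + 1 / ((∏ j ∈ range m, (q j : ℝ)) * q m) := by
      ring
    linarith
  | succ N hN ih =>
    rw [Finset.sum_range_succ, Finset.prod_range_succ (n := N)]
    have hP := prod_pos' hq N
    have hqN : (0 : ℝ) < q N := by have := hq N; positivity
    have h1 : (E N : ℝ) + 1 ≤ q N := by exact_mod_cast hE N
    have : (E N : ℝ) / ((∏ j ∈ range N, (q j : ℝ)) * q N)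
        ≤ 1 / ∏ j ∈ range N, (q j : ℝ) - 1 / ((∏ j ∈ range N, (q j : ℝ)) * q N) := by
      rw [div_sub_div _ _ hP.ne' (by positivity), div_le_div_iff₀ (by positivity) (by positivity)]
      have : (0 : ℝ) ≤ (∏ j ∈ range N, (q j : ℝ)) * (∏ j ∈ range N, (q j : ℝ)) * q N := by
        positivity
      nlinarith
    linarith

theorem sum_nonneg_of {q E : ℕ → ℕ} {y : ℝ}
    (h : HasSum (fun n => (E n : ℝ) / ∏ j ∈ range (n + 1), (q j : ℝ)) y) : 0 ≤ y :=
  h.nonneg (fun n => by positivity)

theorem sum_lt_one {q E : ℕ → ℕ} (hq : ∀ n, 2 ≤ q n) (hE : ∀ n, E n < q n) (m : ℕ)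
    (hm : E m ≠ q m - 1) {y : ℝ}
    (h : HasSum (fun n => (E n : ℝ) / ∏ j ∈ range (n + 1), (q j : ℝ)) y) : y < 1 := by
  have h1 : y ≤ 1 - 1 / ∏ j ∈ range (m + 1), (q j : ℝ) := by
    apply le_of_tendsto h.tendsto_sum_nat
    filter_upwards [eventually_ge_atTop (m + 1)] with N hN
    have := partial_le' hq hE m hm N hN
    have h2 : (0 : ℝ) ≤ 1 / ∏ j ∈ range N, (q j : ℝ) := by positivity
    linarith
  have h2 : (0 : ℝ) < 1 / ∏ j ∈ range (m + 1), (q j : ℝ) := by
    have := prod_pos' hq (m + 1)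
    positivity
  linarith

theorem shift_sum {q E : ℕ → ℕ} (hq : ∀ n, 2 ≤ q n) {y : ℝ}
    (h : HasSum (fun n => (E n : ℝ) / ∏ j ∈ range (n + 1), (q j : ℝ)) y) :
    HasSum (fun n => (E (n + 1) : ℝ) / ∏ j ∈ range (n + 1), (q (j + 1) : ℝ))
      (y * q 0 - E 0) := by
  have hq0 : (0 : ℝ) < q 0 := by have := hq 0; positivity
  have h1 := (hasSum_nat_add_iff' 1).mpr h
  have h2 := h1.mul_right (q 0 : ℝ)
  simp only [Finset.range_one, Finset.sum_singleton, zero_add, Finset.prod_singleton] at h2
  have e1 : (fun n => (E (n + 1) : ℝ) / ∏ j ∈ range (n + 1), (q (j + 1) : ℝ)) =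
      fun i => ((E (i + 1) : ℝ) / ∏ j ∈ range (i + 1 + 1), (q j : ℝ)) * (q 0 : ℝ) := by
    funext n
    rw [Finset.prod_range_succ' (fun j => (q j : ℝ)) (n + 1)]
    have : (0 : ℝ) < ∏ j ∈ range (n + 1), (q (j + 1) : ℝ) :=
      prod_pos' (q := fun j => q (j + 1)) (fun j => hq (j + 1)) (n + 1)
    field_simp
  have e2 : y * (q 0 : ℝ) - E 0 = (y - (E 0 : ℝ) / (q 0 : ℝ)) * (q 0 : ℝ) := by
    field_simp
  rw [e1, e2]
  exact h2

theorem digits_unique (n : ℕ) : ∀ (q E E' : ℕ → ℕ) (y : ℝ), (∀ n, 2 ≤ q n) →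
    (∀ n, E n < q n) → (∀ N, ∃ n, N ≤ n ∧ E n ≠ q n - 1) →
    (∀ n, E' n < q n) → (∀ N, ∃ n, N ≤ n ∧ E' n ≠ q n - 1) →
    HasSum (fun n => (E n : ℝ) / ∏ j ∈ range (n + 1), (q j : ℝ)) y →
    HasSum (fun n => (E' n : ℝ) / ∏ j ∈ range (n + 1), (q j : ℝ)) y → E n = E' n := by
  have key : ∀ (q E E' : ℕ → ℕ) (y : ℝ), (∀ n, 2 ≤ q n) →
      (∀ n, E n < q n) → (∀ N, ∃ n, N ≤ n ∧ E n ≠ q n - 1) →
      (∀ n, E' n < q n) → (∀ N, ∃ n, N ≤ n ∧ E' n ≠ q n - 1) →
      HasSum (fun n => (E n : ℝ) / ∏ j ∈ range (n + 1), (q j : ℝ)) y →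
      HasSum (fun n => (E' n : ℝ) / ∏ j ∈ range (n + 1), (q j : ℝ)) y → E 0 = E' 0 := by
    intro q E E' y hq hE hI hE' hI' h h'
    have s := shift_sum hq h
    have s' := shift_sum hq h'
    obtain ⟨m, hm1, hm⟩ := hI 1
    obtain ⟨m', hm1', hm'⟩ := hI' 1
    obtain ⟨m, rfl⟩ : ∃ a, m = a + 1 := ⟨m - 1, by omega⟩
    obtain ⟨m', rfl⟩ : ∃ a, m' = a + 1 := ⟨m' - 1, by omega⟩
    have a1 := sum_nonneg_of (q := fun j => q (j + 1)) (E := fun j => E (j + 1)) s
    have a2 := sum_nonneg_of (q := fun j => q (j + 1)) (E := fun j => E' (j + 1)) s'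
    have b1 := sum_lt_one (q := fun j => q (j + 1)) (E := fun j => E (j + 1))
      (fun j => hq (j + 1)) (fun j => hE (j + 1)) m hm s
    have b2 := sum_lt_one (q := fun j => q (j + 1)) (E := fun j => E' (j + 1))
      (fun j => hq (j + 1)) (fun j => hE' (j + 1)) m' hm' s'
    have c1 : (E 0 : ℝ) < E' 0 + 1 := by linarith
    have c2 : (E' 0 : ℝ) < E 0 + 1 := by linarith
    have d1 : E 0 < E' 0 + 1 := by exact_mod_cast c1
    have d2 : E' 0 < E 0 + 1 := by exact_mod_cast c2
    omega
  induction n with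
  | zero => exact key
  | succ n ih =>
    intro q E E' y hq hE hI hE' hI' h h'
    have h0 := key q E E' y hq hE hI hE' hI' h h'
    have s := shift_sum hq h
    have s' := shift_sum hq h'
    rw [← h0] at s'
    refine ih (fun j => q (j + 1)) (fun j => E (j + 1)) (fun j => E' (j + 1)) _
      (fun j => hq (j + 1)) (fun j => hE (j + 1)) ?_ (fun j => hE' (j + 1)) ?_ s s'
    · intro N
      obtain ⟨m, hm1, hm⟩ := hI (N + 1)
      obtain ⟨m, rfl⟩ : ∃ a, m = a + 1 := ⟨m - 1, by omega⟩
      exact ⟨m, by omega, hm⟩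
    · intro N
      obtain ⟨m, hm1, hm⟩ := hI' (N + 1)
      obtain ⟨m, rfl⟩ : ∃ a, m = a + 1 := ⟨m - 1, by omega⟩
      exact ⟨m, by omega, hm⟩

theorem expansion_unique {q : ℕ → ℕ} (hq : IsBasic q) {x : ℝ} {E E' : ℕ → ℕ}
    (h : IsCantorExpansion q x E) (h' : IsCantorExpansion q x E') : E = E' :=
  funext fun n => digits_unique n q E E' _ hq h.1 h.2.1 h'.1 h'.2.1 h.2.2 h'.2.2

theorem expansion_exists {q : ℕ → ℕ} (hq : IsBasic q) {E : ℕ → ℕ} (hE : ∀ n, E n < q n)
    (hI : ∀ N, ∃ n, N ≤ n ∧ E n ≠ q n - 1) : ∃ x : ℝ, IsCantorExpansion q x E := by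
  have hs : Summable (fun n => (E n : ℝ) / ∏ j ∈ range (n + 1), (q j : ℝ)) := by
    apply summable_of_sum_range_le (c := 1) (fun n => by positivity)
    intro N
    have := partial_le hq hE N
    have h2 : (0 : ℝ) ≤ 1 / ∏ j ∈ range N, (q j : ℝ) := by positivity
    linarith
  obtain ⟨y, hy⟩ := hs
  obtain ⟨m, _, hm⟩ := hI 0
  have h0 := sum_nonneg_of hy
  have h1 := sum_lt_one hq hE m hm hy
  refine ⟨y, hE, hI, ?_⟩
  have : ⌊y⌋ = 0 := Int.floor_eq_zero_iff.mpr ⟨h0, h1⟩
  simpa [this] using hy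

end Pool.Agent.MP_f007e6_nt

end

-- part MP_f007e6_nt.Blocks
section

/-! Finite words with prescribed block counts. -/

open Finset

namespace Pool.Agent.MP_f007e6_nt

/-- `c k B` is the number of occurrences of the block `B 0, ..., B (k-1)` in a finite word over
`{0, ..., b}` ending with the letter `b`. -/
def Realiz (b : ℕ) (c : ℕ → (ℕ → ℕ) → ℕ) : Prop :=
  ∃ (L : ℕ) (d : ℕ → ℕ), (∀ n, d n ≤ b) ∧ (∀ n, L ≤ n + 1 → d n = b) ∧
    ∀ k (B : ℕ → ℕ), (∀ s < k, B s < b) →
      ((range L).filter (fun n => ∀ s < k, d (n + s) = B s)).card = c k B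

theorem Realiz.zero (b : ℕ) : Realiz b 0 :=
  ⟨0, fun _ => b, fun _ => le_rfl, fun _ _ => rfl, fun _ _ _ => by simp⟩

theorem Realiz.add {b : ℕ} {c₁ c₂ : ℕ → (ℕ → ℕ) → ℕ} (h₁ : Realiz b c₁) (h₂ : Realiz b c₂) :
    Realiz b (c₁ + c₂) := by
  obtain ⟨L₁, d₁, a₁, e₁, f₁⟩ := h₁
  obtain ⟨L₂, d₂, a₂, e₂, f₂⟩ := h₂
  by_cases hL : L₂ = 0
  · subst hL
    refine ⟨L₁, d₁, a₁, e₁, fun k B hB => ?_⟩
    have := f₂ k B hB
    simp only [range_zero, filter_empty, card_empty] at this
    simp [f₁ k B hB, ← this]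
  refine ⟨L₁ + L₂, fun n => if n < L₁ then d₁ n else d₂ (n - L₁), ?_, ?_, ?_⟩
  · intro n
    dsimp only
    split_ifs
    · exact a₁ _
    · exact a₂ _
  · intro n hn
    dsimp only
    rw [if_neg (by omega)]
    exact e₂ _ (by omega)
  · intro k B hB
    rw [Finset.card_filter, Finset.sum_range_add, Pi.add_apply, Pi.add_apply, ← f₁ k B hB,
      ← f₂ k B hB, Finset.card_filter, Finset.card_filter]
    congr 1
    · apply Finset.sum_congr rfl
      intro n hn
      have hn' := Finset.mem_range.mp hn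
      congr 1
      apply propext
      by_cases hk : n + k ≤ L₁
      · constructor
        · intro h s hs
          have := h s hs
          dsimp only at this
          rwa [if_pos (by omega)] at this
        · intro h s hs
          dsimp only
          rw [if_pos (by omega)]
          exact h s hs
      · have hs : L₁ - 1 - n < k := by omega
        have h1 := hB _ hs
        have h2 : d₁ (n + (L₁ - 1 - n)) = b := e₁ _ (by omega)
        constructor
        · intro h
          have := h _ hs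
          dsimp only at this
          rw [if_pos (by omega), h2] at this
          omega
        · intro h
          have := h _ hs
          omega
    · apply Finset.sum_congr rfl
      intro n _
      congr 1
      apply propext
      constructor
      · intro h s hs
        have := h s hs
        dsimp only at this
        rwa [if_neg (by omega), show L₁ + n + s - L₁ = n + s by omega] at this
      · intro h s hs
        dsimp only
        rw [if_neg (by omega), show L₁ + n + s - L₁ = n + s by omega]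
        exact h s hs

theorem Realiz.sum {b : ℕ} {ι : Type*} (s : Finset ι) (c : ι → ℕ → (ℕ → ℕ) → ℕ)
    (h : ∀ i ∈ s, Realiz b (c i)) : Realiz b (∑ i ∈ s, c i) :=
  Finset.sum_induction c (Realiz b) (fun _ _ => Realiz.add) (Realiz.zero b) h

theorem Realiz.nsmul {b : ℕ} {c : ℕ → (ℕ → ℕ) → ℕ} (h : Realiz b c) (m : ℕ) :
    Realiz b (m • c) := by
  induction m with
  | zero => simpa using Realiz.zero b
  | succ m ih => rw [succ_nsmul]; exact ih.add h

theorem Realiz.congr {b : ℕ} {c c' : ℕ → (ℕ → ℕ) → ℕ} (h : Realiz b c)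
    (e : ∀ k B, (∀ s < k, B s < b) → c k B = c' k B) : Realiz b c' := by
  obtain ⟨L, d, a, e₁, f⟩ := h
  exact ⟨L, d, a, e₁, fun k B hB => by rw [f k B hB, e k B hB]⟩

/-- A word of length `r` followed by the letter `b`. -/
def extW (b : ℕ) {r : ℕ} (w : Fin r → ℕ) (n : ℕ) : ℕ := if h : n < r then w ⟨n, h⟩ else b

theorem count_words (b r p k : ℕ) (B : ℕ → ℕ) (hB : ∀ s < k, B s < b) (hp : p ≤ r) :
    ((Fintype.piFinset (fun _ : Fin r => range b)).filter
      (fun w => ∀ s < k, extW b w (p + s) = B s)).card = if p + k ≤ r then b ^ (r - k) else 0 := by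
  split_ifs with h
  · have : (Fintype.piFinset (fun _ : Fin r => range b)).filter
        (fun w => ∀ s < k, extW b w (p + s) = B s) =
        Fintype.piFinset (fun i : Fin r =>
          if p ≤ i.val ∧ i.val < p + k then {B (i.val - p)} else range b) := by
      ext w
      simp only [Finset.mem_filter, Fintype.mem_piFinset, Finset.mem_range]
      constructor
      · rintro ⟨h1, h2⟩ i
        split_ifs with hi
        · have := h2 (i.val - p) (by omega)
          rw [extW, dif_pos (by omega)] at this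
          rw [Finset.mem_singleton, ← this]
          congr 1
          ext
          simp only
          omega
        · exact Finset.mem_range.mpr (h1 i)
      · intro h1
        refine ⟨fun i => ?_, fun s hs => ?_⟩
        · have := h1 i
          split_ifs at this with hi
          · rw [Finset.mem_singleton] at this
            rw [this]
            exact hB _ (by omega)
          · exact Finset.mem_range.mp this
        · have := h1 ⟨p + s, by omega⟩
          rw [if_pos (by simp; omega), Finset.mem_singleton] at this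
          rw [extW, dif_pos (by omega), this]
          simp
    rw [this, Fintype.card_piFinset]
    have h2 : ∀ i : Fin r, (if p ≤ i.val ∧ i.val < p + k then {B (i.val - p)} else range b :
        Finset ℕ).card = (fun n => if p ≤ n ∧ n < p + k then 1 else b) i.val := by
      intro i
      dsimp only
      split_ifs <;> simp
    rw [Finset.prod_congr rfl (fun i _ => h2 i), Fin.prod_univ_eq_prod_range
      (fun n => if p ≤ n ∧ n < p + k then 1 else b) r, Finset.prod_ite]
    simp only [Finset.prod_const_one, one_mul, Finset.prod_const]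
    congr 1
    have h3 : (range r).filter (fun n => p ≤ n ∧ n < p + k) = Finset.Ico p (p + k) := by
      ext n
      simp only [Finset.mem_filter, Finset.mem_range, Finset.mem_Ico]
      omega
    have h4 := Finset.card_filter_add_card_filter_not (s := range r)
      (fun n => p ≤ n ∧ n < p + k)
    rw [h3] at h4
    simp only [Nat.card_Ico, Finset.card_range] at h4
    omega
  · rw [Finset.card_eq_zero, Finset.filter_eq_empty_iff]
    intro w _ hw
    have h1 := hw (r - p) (by omega)
    have h2 := hB (r - p) (by omega)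
    rw [extW, dif_neg (by omega)] at h1
    omega

theorem realiz_run (b r : ℕ) : Realiz b (fun k _ => (r + 1 - k) * b ^ (r - k)) := by
  have h1 : Realiz b (∑ w ∈ Fintype.piFinset (fun _ : Fin r => range b),
      fun k B => ((range (r + 1)).filter (fun n => ∀ s < k, extW b w (n + s) = B s)).card) := by
    apply Realiz.sum
    intro w hw
    refine ⟨r + 1, extW b w, fun n => ?_, fun n hn => ?_, fun _ _ _ => rfl⟩
    · unfold extW
      split_ifs with h
      · exact (Finset.mem_range.mp (Fintype.mem_piFinset.mp hw _)).le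
      · exact le_rfl
    · rw [extW, dif_neg (by omega)]
  refine h1.congr (fun k B hB => ?_)
  rw [Finset.sum_apply, Finset.sum_apply]
  simp only [Finset.card_filter]
  rw [Finset.sum_comm]
  have h2 : ∀ p ∈ range (r + 1), (∑ w ∈ Fintype.piFinset (fun _ : Fin r => range b),
      if ∀ s < k, extW b w (p + s) = B s then 1 else 0) = if p + k ≤ r then b ^ (r - k) else 0 := by
    intro p hp
    rw [← count_words b r p k B hB (by have := Finset.mem_range.mp hp; omega), Finset.card_filter]
  rw [Finset.sum_congr rfl h2, ← Finset.sum_filter, Finset.sum_const, smul_eq_mul]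
  congr 1
  have : (range (r + 1)).filter (fun p => p + k ≤ r) = range (r + 1 - k) := by
    ext n
    simp only [Finset.mem_filter, Finset.mem_range]
    omega
  rw [this, Finset.card_range]

theorem second_diff_sum (U : ℕ → ℤ) (k M : ℕ) (hM : k ≤ M) :
    ∑ r ∈ range M, (U r - 2 * U (r + 1) + U (r + 2)) * ((r + 1 - k : ℕ) : ℤ) =
      U k - ((M : ℤ) + 1 - k) * U M + ((M : ℤ) - k) * U (M + 1) := by
  induction M, hM using Nat.le_induction with
  | base =>
    rw [Finset.sum_eq_zero]
    · ring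
    · intro r hr
      have := Finset.mem_range.mp hr
      rw [show r + 1 - k = 0 by omega]
      simp
  | succ M hM ih =>
    rw [Finset.sum_range_succ, ih, Nat.cast_sub (by omega)]
    push_cast
    ring

/-- The convex sequence of run counts. -/
def runU (e : ℕ → ℕ) (R k : ℕ) : ℕ :=
  if k ≤ R then 2 ^ (R - k) * (4 + if k < R then e k else 0) else 0

theorem runU_convex (e : ℕ → ℕ) (he : ∀ k, e k ≤ 1) (R r : ℕ) :
    2 * runU e R (r + 1) ≤ runU e R r + runU e R (r + 2) := by
  unfold runU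
  have h0 := he r
  have h1 := he (r + 1)
  by_cases c1 : r + 2 ≤ R
  · rw [if_pos (by omega), if_pos (by omega), if_pos (by omega), if_pos (by omega), if_pos c1]
    obtain ⟨a, rfl⟩ : ∃ a, R = r + 2 + a := ⟨R - (r + 2), by omega⟩
    rw [show r + 2 + a - (r + 1) = a + 1 by omega, show r + 2 + a - r = a + 2 by omega,
      show r + 2 + a - (r + 2) = a by omega, pow_succ, pow_succ, pow_succ]
    have : 0 < 2 ^ a := by positivity
    split_ifs <;> nlinarith [Nat.zero_le (e (r + 2)), Nat.zero_le (e r)]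
  · by_cases c2 : r + 1 = R
    · subst c2
      rw [if_pos le_rfl, if_neg (lt_irrefl _), if_pos (by omega), if_pos (by omega),
        if_neg (by omega)]
      simp only [Nat.sub_self, pow_zero, Nat.add_sub_cancel_left, pow_one]
      omega
    · rw [if_neg (by omega)]
      omega

theorem exists_word (e : ℕ → ℕ) (he : ∀ k, e k ≤ 1) (he0 : e 0 = 0) (b R : ℕ) :
    ∃ d : ℕ → ℕ, (∀ n, d n ≤ b) ∧ (∀ n, 4 * (2 * b) ^ R ≤ n + 1 → d n = b) ∧
      ∀ k (B : ℕ → ℕ), k < R → (∀ s < k, B s < b) →
        ((range (4 * (2 * b) ^ R)).filter (fun n => ∀ s < k, d (n + s) = B s)).card =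
          (4 + e k) * (2 * b) ^ (R - k) := by
  set nr : ℕ → ℕ := fun r => runU e R r + runU e R (r + 2) - 2 * runU e R (r + 1) with hnr
  have h1 : Realiz b (∑ r ∈ range (R + 1),
      (nr r * b ^ (R - r)) • (fun k _ => (r + 1 - k) * b ^ (r - k))) :=
    Realiz.sum _ _ (fun r _ => (realiz_run b r).nsmul _)
  have hU : ∀ k, k ≤ R → ∑ r ∈ range (R + 1), nr r * (r + 1 - k) = runU e R k := by
    intro k hk
    have h := second_diff_sum (fun r => (runU e R r : ℤ)) k (R + 1) (by omega)
    have z1 : runU e R (R + 1) = 0 := by rw [runU, if_neg (by omega)]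
    have z2 : runU e R (R + 1 + 1) = 0 := by rw [runU, if_neg (by omega)]
    simp only [z1, z2, Nat.cast_zero, mul_zero, sub_zero, add_zero] at h
    have h' : ((∑ r ∈ range (R + 1), nr r * (r + 1 - k) : ℕ) : ℤ) = (runU e R k : ℤ) := by
      rw [← h, Nat.cast_sum]
      apply Finset.sum_congr rfl
      intro r _
      rw [Nat.cast_mul, hnr]
      dsimp only
      rw [Nat.cast_sub (runU_convex e he R r)]
      push_cast
      ring
    exact_mod_cast h'
  have h2 : Realiz b (fun k _ => if k ≤ R then runU e R k * b ^ (R - k) else 0) := by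
    refine h1.congr (fun k B _ => ?_)
    rw [Finset.sum_apply, Finset.sum_apply]
    simp only [Pi.smul_apply, smul_eq_mul]
    split_ifs with hk
    · rw [← hU k hk, Finset.sum_mul]
      apply Finset.sum_congr rfl
      intro r hr
      have hr' := Finset.mem_range.mp hr
      by_cases c : k ≤ r
      · rw [show R - k = (R - r) + (r - k) by omega, pow_add]
        ring
      · rw [show r + 1 - k = 0 by omega]
        simp
    · apply Finset.sum_eq_zero
      intro r hr
      have hr' := Finset.mem_range.mp hr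
      rw [show r + 1 - k = 0 by omega]
      simp
  obtain ⟨L, d, a, e₁, f⟩ := h2
  have hL : L = 4 * (2 * b) ^ R := by
    have := f 0 (fun _ => 0) (by simp)
    simp only [not_lt_zero, IsEmpty.forall_iff, implies_true, filter_true, card_range,
      Nat.zero_le, if_true, Nat.sub_zero, runU, he0, ite_self, add_zero] at this
    rw [this, mul_pow]
    ring
  subst hL
  refine ⟨d, a, e₁, fun k B hk hB => ?_⟩
  rw [f k B hB]
  dsimp only
  rw [if_pos hk.le, runU, if_pos hk.le, if_pos hk, mul_pow]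
  ring

end Pool.Agent.MP_f007e6_nt

end

-- part MP_f007e6_nt.Stages
section

/-! The stage construction. -/

open Filter Topology Finset

namespace Pool.Agent.MP_f007e6_nt

def LL (t : ℕ) : ℕ := 4 * (2 * (t + 2)) ^ (t + 1)

def ll (t : ℕ) : ℕ := (2 * (t + 2)) ^ t * ((t + 1) * (LL (t + 1) + t + 2))

def TT : ℕ → ℕ
  | 0 => 0
  | t + 1 => TT t + ll t * LL t

theorem LL_pos (t : ℕ) : 0 < LL t := by unfold LL; positivity

theorem ll_pos (t : ℕ) : 0 < ll t := by unfold ll; positivity

theorem TT_succ (t : ℕ) : TT (t + 1) = TT t + ll t * LL t := rfl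

theorem TT_strictMono : StrictMono TT := by
  apply strictMono_nat_of_lt_succ
  intro t
  have := Nat.mul_pos (ll_pos t) (LL_pos t)
  rw [TT_succ]
  omega

theorem exists_st (n : ℕ) : ∃ t, n < TT (t + 1) :=
  ⟨n, lt_of_lt_of_le (Nat.lt_succ_self n) (TT_strictMono.id_le (n + 1))⟩

def st (n : ℕ) : ℕ := Nat.find (exists_st n)

theorem lt_TT_st (n : ℕ) : n < TT (st n + 1) := Nat.find_spec (exists_st n)

theorem TT_st_le (n : ℕ) : TT (st n) ≤ n := by
  rcases h : st n with _ | t
  · simp [TT]
  · have := Nat.find_min (exists_st n) (m := t) (by unfold st at h; omega)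
    omega

theorem st_eq {n t : ℕ} (h1 : TT t ≤ n) (h2 : n < TT (t + 1)) : st n = t := by
  have a := lt_TT_st n
  have b := TT_st_le n
  have c : t < st n + 1 := TT_strictMono.lt_iff_lt.mp (by omega)
  have d : st n < t + 1 := TT_strictMono.lt_iff_lt.mp (by omega)
  omega

theorem le_st {n t : ℕ} (h : TT t ≤ n) : t ≤ st n := by
  have a := lt_TT_st n
  have c : t < st n + 1 := TT_strictMono.lt_iff_lt.mp (by omega)
  omega

theorem st_mono {m n : ℕ} (h : m ≤ n) : st m ≤ st n := le_st ((TT_st_le m).trans h)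

theorem st_tendsto : Tendsto st atTop atTop :=
  tendsto_atTop_atTop.mpr (fun t => ⟨TT t, fun _ hn => le_st hn⟩)

def qq (n : ℕ) : ℕ := 2 * (st n + 2)

theorem qq_basic : IsBasic qq := fun n => by unfold qq; omega

theorem qq_tendsto : Tendsto qq atTop atTop :=
  tendsto_atTop_mono (fun n => by unfold qq; omega) st_tendsto

theorem abs_sum_le {u : ℕ → ℝ} {M : ℝ} (hu : ∀ j, |u j| ≤ M) (n : ℕ) :
    |∑ j ∈ range n, u j| ≤ M * n := by
  refine (Finset.abs_sum_le_sum_abs _ _).trans ?_
  refine (Finset.sum_le_sum (fun j _ => hu j)).trans ?_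
  simp [mul_comm]

theorem zero_sum {u : ℕ → ℝ} {M : ℝ} (hu : ∀ j, |u j| ≤ M) (t₀ : ℕ)
    (hz : ∀ t, t₀ ≤ t → ∀ i < ll t, ∑ p ∈ range (LL t), u (TT t + i * LL t + p) = 0) (n : ℕ) :
    |∑ j ∈ range n, u j| ≤ M * (TT t₀ + LL (st n)) := by
  have hM : 0 ≤ M := (abs_nonneg _).trans (hu 0)
  have h1 : ∀ t, t₀ ≤ t → ∀ i ≤ ll t,
      ∑ j ∈ range (TT t + i * LL t), u j = ∑ j ∈ range (TT t), u j := by
    intro t ht i
    induction i with
    | zero => simp
    | succ i ih =>
      intro hi
      rw [show TT t + (i + 1) * LL t = TT t + i * LL t + LL t by ring, Finset.sum_range_add,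
        ih (by omega), hz t ht i (by omega), add_zero]
  have h2 : ∀ t, t₀ ≤ t → ∑ j ∈ range (TT t), u j = ∑ j ∈ range (TT t₀), u j := by
    intro t ht
    induction t, ht using Nat.le_induction with
    | base => rfl
    | succ t ht ih => rw [TT_succ, h1 t ht _ le_rfl, ih]
  by_cases hn : n ≤ TT t₀
  · refine (abs_sum_le hu n).trans (mul_le_mul_of_nonneg_left ?_ hM)
    have : (n : ℝ) ≤ TT t₀ := by exact_mod_cast hn
    have : (0 : ℝ) ≤ LL (st n) := by positivity
    linarith
  · have ht : t₀ ≤ st n := le_st (by omega)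
    have a := lt_TT_st n
    have b := TT_st_le n
    set t := st n with htdef
    have hL := LL_pos t
    have e : n = TT t + ((n - TT t) / LL t) * LL t + (n - TT t) % LL t := by
      have := Nat.div_add_mod' (n - TT t) (LL t)
      omega
    have hi : (n - TT t) / LL t ≤ ll t := by
      rw [TT_succ] at a
      apply Nat.div_le_of_le_mul
      rw [mul_comm]
      omega
    have hp : (n - TT t) % LL t ≤ LL t := (Nat.mod_lt _ hL).le
    rw [e, Finset.sum_range_add, h1 t ht _ hi, h2 t ht]
    refine (abs_add_le _ _).trans ?_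
    have c1 := abs_sum_le hu (TT t₀)
    have c2 := abs_sum_le (u := fun p => u (TT t + ((n - TT t) / LL t) * LL t + p))
      (fun j => hu _) ((n - TT t) % LL t)
    have c3 : M * (((n - TT t) % LL t : ℕ) : ℝ) ≤ M * LL t :=
      mul_le_mul_of_nonneg_left (by exact_mod_cast hp) hM
    linarith

noncomputable def GG (k n : ℕ) : ℝ := ∑ j ∈ range n, 1 / (qq j : ℝ) ^ k

theorem one_div_pow_le (k j : ℕ) : 1 / (qq j : ℝ) ^ k ≤ 1 := by
  have : (1 : ℝ) ≤ qq j := by have := qq_basic j; exact_mod_cast (by omega : 1 ≤ qq j)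
  exact div_le_one_of_le₀ (one_le_pow₀ this) (by positivity)

theorem one_div_prod_le (k j : ℕ) : 1 / ∏ s ∈ range k, (qq (j + s) : ℝ) ≤ 1 := by
  refine div_le_one_of_le₀ ?_ (by positivity)
  refine Finset.one_le_prod (fun s _ => ?_)
  have := qq_basic (j + s)
  exact_mod_cast (by omega : 1 ≤ qq (j + s))

theorem qSum_sub_GG (k n : ℕ) : |qSum qq k n - 1 * GG k n| ≤ k * (st n + 1) := by
  rw [one_mul, qSum, GG, ← Finset.sum_sub_distrib]
  refine (Finset.abs_sum_le_sum_abs _ _).trans ?_
  have h1 : ∀ j ∈ range n, |1 / ∏ s ∈ range k, (qq (j + s) : ℝ) - 1 / (qq j : ℝ) ^ k| ≤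
      if TT (st j + 1) < j + k then 1 else 0 := by
    intro j _
    split_ifs with h
    · have a1 := one_div_pow_le k j
      have a2 := one_div_prod_le k j
      have a3 : (0 : ℝ) ≤ 1 / (qq j : ℝ) ^ k := by positivity
      have a4 : (0 : ℝ) ≤ 1 / ∏ s ∈ range k, (qq (j + s) : ℝ) := by positivity
      rw [abs_le]
      constructor <;> linarith
    · have : ∏ s ∈ range k, (qq (j + s) : ℝ) = (qq j : ℝ) ^ k := by
        rw [← Finset.card_range k, ← Finset.prod_const, Finset.card_range]
        apply Finset.prod_congr rfl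
        intro s hs
        have hs' := Finset.mem_range.mp hs
        have b := TT_st_le j
        rw [qq, qq, st_eq (n := j + s) (t := st j) (by omega) (by omega)]
      rw [this]
      simp
  refine (Finset.sum_le_sum h1).trans ?_
  rw [Finset.sum_boole]
  have h2 : (range n).filter (fun j => TT (st j + 1) < j + k) ⊆
      (range (st n + 1)).biUnion (fun t => Finset.Ico (TT (t + 1) - k) (TT (t + 1))) := by
    intro j hj
    simp only [Finset.mem_filter, Finset.mem_range, Finset.mem_biUnion, Finset.mem_Ico] at hj ⊢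
    have := st_mono hj.1.le
    have a := lt_TT_st j
    exact ⟨st j, by omega, by omega, a⟩
  have h3 := (Finset.card_le_card h2).trans (Finset.card_biUnion_le_card_mul _ _ k (by
    intro t _
    rw [Nat.card_Ico]
    omega))
  rw [Finset.card_range, mul_comm] at h3
  exact_mod_cast h3

theorem GG_lower (k n : ℕ) (h : k + 1 ≤ st n) :
    (st n : ℝ) * (LL (st n) + st n + 1) ≤ GG k n := by
  obtain ⟨t, ht⟩ : ∃ t, st n = t + 1 := ⟨st n - 1, by omega⟩
  have b := TT_st_le n
  rw [ht] at b ⊢
  have h1 : ∑ j ∈ range (TT (t + 1)), 1 / (qq j : ℝ) ^ k ≤ GG k n :=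
    Finset.sum_le_sum_of_subset_of_nonneg (Finset.range_mono b) (fun j _ _ => by positivity)
  refine le_trans ?_ h1
  rw [TT_succ, Finset.sum_range_add]
  have h2 : (0 : ℝ) ≤ ∑ j ∈ range (TT t), 1 / (qq j : ℝ) ^ k :=
    Finset.sum_nonneg (fun j _ => by positivity)
  have h3 : ∑ j ∈ range (ll t * LL t), 1 / (qq (TT t + j) : ℝ) ^ k =
      (ll t * LL t : ℕ) * (1 / ((2 * (t + 2) : ℕ) : ℝ) ^ k) := by
    rw [← nsmul_eq_mul, ← Finset.card_range (ll t * LL t), ← Finset.sum_const, Finset.card_range]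
    apply Finset.sum_congr rfl
    intro j hj
    have hj' := Finset.mem_range.mp hj
    rw [qq, st_eq (n := TT t + j) (t := t) (by omega) (by rw [TT_succ]; omega)]
  rw [h3]
  have h4 : (t + 1) * (LL (t + 1) + t + 2) * (2 * (t + 2)) ^ k ≤ ll t * LL t := by
    have a1 : (2 * (t + 2)) ^ k ≤ (2 * (t + 2)) ^ t := Nat.pow_le_pow_right (by omega) (by omega)
    have a2 := LL_pos t
    calc (t + 1) * (LL (t + 1) + t + 2) * (2 * (t + 2)) ^ k
        ≤ (t + 1) * (LL (t + 1) + t + 2) * (2 * (t + 2)) ^ t := Nat.mul_le_mul_left _ a1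
      _ = ll t * 1 := by unfold ll; ring
      _ ≤ ll t * LL t := Nat.mul_le_mul_left _ a2
  have h5 : (((t + 1) * (LL (t + 1) + t + 2) * (2 * (t + 2)) ^ k : ℕ) : ℝ) ≤ (ll t * LL t : ℕ) := by
    exact_mod_cast h4
  have h6 : (0 : ℝ) < ((2 * (t + 2) : ℕ) : ℝ) ^ k := by positivity
  rw [mul_one_div]
  have h7 : ((t + 1 : ℕ) : ℝ) * ((LL (t + 1) : ℝ) + ((t + 1 : ℕ) : ℝ) + 1) ≤
      ((ll t * LL t : ℕ) : ℝ) / ((2 * (t + 2) : ℕ) : ℝ) ^ k := by
    rw [le_div_iff₀ h6]
    refine le_trans (le_of_eq ?_) h5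
    push_cast
    ring
  linarith

theorem st_tendsto_real : Tendsto (fun n => (st n : ℝ)) atTop atTop :=
  tendsto_natCast_atTop_atTop.comp st_tendsto

theorem GG_tendsto (k : ℕ) : Tendsto (GG k) atTop atTop := by
  refine tendsto_atTop_mono' atTop ?_ st_tendsto_real
  filter_upwards [st_tendsto.eventually_ge_atTop (k + 1)] with n hn
  refine le_trans ?_ (GG_lower k n hn)
  have : (0 : ℝ) ≤ (st n : ℝ) * (LL (st n) + st n) := by positivity
  nlinarith

theorem ratio_tendsto (k : ℕ) (A : ℕ → ℝ) (m K : ℝ)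
    (hA : ∀ n, |A n - m * GG k n| ≤ K * (LL (st n) + st n + 1)) :
    Tendsto (fun n => A n / GG k n) atTop (𝓝 m) := by
  have hK : 0 ≤ K := by
    have h := (abs_nonneg _).trans (hA 0)
    have : (0 : ℝ) < LL (st 0) + st 0 + 1 := by positivity
    exact nonneg_of_mul_nonneg_left h this
  rw [tendsto_iff_norm_sub_tendsto_zero]
  refine squeeze_zero' (Eventually.of_forall fun n => norm_nonneg _) ?_
    (st_tendsto_real.const_div_atTop K)
  filter_upwards [st_tendsto.eventually_ge_atTop (k + 1)] with n hn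
  have h1 := GG_lower k n hn
  have h2 : (0 : ℝ) < st n := by exact_mod_cast (by omega : 0 < st n)
  have h3 : (0 : ℝ) < LL (st n) + st n + 1 := by positivity
  have h4 : 0 < GG k n := lt_of_lt_of_le (mul_pos h2 h3) h1
  have h5 : A n / GG k n - m = (A n - m * GG k n) / GG k n := by field_simp
  rw [Real.norm_eq_abs, h5, abs_div, abs_of_pos h4, div_le_div_iff₀ h4 h2]
  calc |A n - m * GG k n| * st n ≤ K * (LL (st n) + st n + 1) * st n :=
        mul_le_mul_of_nonneg_right (hA n) h2.le
    _ = K * (st n * (LL (st n) + st n + 1)) := by ring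
    _ ≤ K * GG k n := mul_le_mul_of_nonneg_left h1 hK

theorem qSum_ratio (k : ℕ) : Tendsto (fun n => qSum qq k n / GG k n) atTop (𝓝 1) := by
  refine ratio_tendsto k _ 1 k (fun n => (qSum_sub_GG k n).trans ?_)
  apply mul_le_mul_of_nonneg_left _ (by positivity)
  have : (0 : ℝ) ≤ LL (st n) := by positivity
  linarith

theorem qq_fullyDivergent : FullyDivergent qq := by
  intro k _
  have h := (qSum_ratio k).pos_mul_atTop one_pos (GG_tendsto k)
  refine h.congr' ?_
  filter_upwards [(GG_tendsto k).eventually_gt_atTop 0] with n hn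
  field_simp

end Pool.Agent.MP_f007e6_nt

end

-- part MP_f007e6_nt.Main
section

/-! Digits with prescribed block frequencies. -/

open Filter Topology Finset

namespace Pool.Agent.MP_f007e6_nt

theorem exists_digits (e : ℕ → ℕ) (he : ∀ k, e k ≤ 1) (he0 : e 0 = 0) :
    ∃ E : ℕ → ℕ, (∀ n, E n + 1 < qq n) ∧
      ∀ k, 1 ≤ k → ∀ B : Fin k → ℕ,
        Tendsto (fun n => (blockCount E B n : ℝ) / qSum qq k n) atTop (𝓝 ((4 + e k) / 4)) := by
  choose d hd1 hd2 hd3 using fun t => exists_word e he he0 (t + 2) (t + 1)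
  set E : ℕ → ℕ := fun n => d (st n) ((n - TT (st n)) % LL (st n)) with hE
  refine ⟨E, fun n => ?_, fun k hk B => ?_⟩
  · have := hd1 (st n) ((n - TT (st n)) % LL (st n))
    simp only [hE, qq]
    omega
  set m : ℝ := (4 + e k) / 4 with hm
  have hm0 : 0 ≤ m := by positivity
  set B' : ℕ → ℕ := fun s => if h : s < k then B ⟨s, h⟩ else 0 with hB'
  obtain ⟨t₀, ht₀k, ht₀⟩ : ∃ t₀, k ≤ t₀ ∧ ∀ s, B' s ≤ t₀ := by
    refine ⟨k + ∑ s, B s, by omega, fun s => ?_⟩
    simp only [hB']
    split_ifs with h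
    · have := Finset.single_le_sum (f := B) (fun _ _ => Nat.zero_le _)
        (Finset.mem_univ (⟨s, h⟩ : Fin k))
      omega
    · omega
  have hiff : ∀ i, (∀ s : Fin k, E (i + s) = B s) ↔ ∀ s < k, E (i + s) = B' s := by
    intro i
    constructor
    · intro h s hs
      simp only [hB', dif_pos hs]
      exact h ⟨s, hs⟩
    · intro h s
      have := h s s.2
      simpa only [hB', dif_pos s.2] using this
  have hEval : ∀ t i p, i < ll t → p < LL t → E (TT t + i * LL t + p) = d t p := by
    intro t i p hi hp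
    have h1 : i * LL t + LL t ≤ ll t * LL t := by
      rw [← Nat.succ_mul]
      exact Nat.mul_le_mul_right _ hi
    have h2 : st (TT t + i * LL t + p) = t := st_eq (by omega) (by rw [TT_succ]; omega)
    simp only [hE, h2]
    rw [show TT t + i * LL t + p - TT t = p + i * LL t by omega, Nat.add_mul_mod_self_right,
      Nat.mod_eq_of_lt hp]
  set u : ℕ → ℝ := fun j => (if ∀ s < k, E (j + s) = B' s then 1 else 0) - m * (1 / (qq j : ℝ) ^ k)
    with hu
  have hub : ∀ j, |u j| ≤ 1 + m := by
    intro j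
    have a1 := one_div_pow_le k j
    have a2 : (0 : ℝ) ≤ 1 / (qq j : ℝ) ^ k := by positivity
    have a3 : m * (1 / (qq j : ℝ) ^ k) ≤ m := by nlinarith
    have a4 : 0 ≤ m * (1 / (qq j : ℝ) ^ k) := by positivity
    simp only [hu]
    rw [abs_le]
    split_ifs <;> constructor <;> linarith
  have hz : ∀ t, t₀ ≤ t → ∀ i < ll t, ∑ p ∈ range (LL t), u (TT t + i * LL t + p) = 0 := by
    intro t ht i hi
    have hBt : ∀ s < k, B' s < t + 2 := fun s _ => by have := ht₀ s; omega
    have hc := hd3 t k B' (by omega) hBt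
    have h1 : i * LL t + LL t ≤ ll t * LL t := by
      rw [← Nat.succ_mul]
      exact Nat.mul_le_mul_right _ hi
    have h2 : ∀ p ∈ range (LL t), u (TT t + i * LL t + p) =
        (if ∀ s < k, d t (p + s) = B' s then 1 else 0) - m * (1 / ((2 * (t + 2) : ℕ) : ℝ) ^ k) := by
      intro p hp
      have hp' := Finset.mem_range.mp hp
      have h3 : st (TT t + i * LL t + p) = t := st_eq (by omega) (by rw [TT_succ]; omega)
      simp only [hu, qq, h3]
      congr 2
      apply propext
      by_cases hpk : p + k ≤ LL t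
      · refine forall₂_congr (fun s hs => ?_)
        rw [add_assoc _ p s, hEval t i (p + s) hi (by omega)]
      · have hs : LL t - 1 - p < k := by omega
        have h4 := hBt _ hs
        have h5 : d t (p + (LL t - 1 - p)) = t + 2 := hd2 t _ (by unfold LL at *; omega)
        constructor
        · intro h
          have := h _ hs
          rw [add_assoc _ p, hEval t i _ hi (by omega), h5] at this
          omega
        · intro h
          have := h _ hs
          omega
    rw [Finset.sum_congr rfl h2, Finset.sum_sub_distrib, Finset.sum_boole, Finset.sum_const,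
      Finset.card_range]
    have hc' : ((range (LL t)).filter (fun n => ∀ s < k, d t (n + s) = B' s)).card =
        (4 + e k) * (2 * (t + 2)) ^ (t + 1 - k) := hc
    rw [hc', LL, show t + 1 = (t + 1 - k) + k by omega, Nat.add_sub_cancel, pow_add, hm]
    simp only [nsmul_eq_mul]
    push_cast
    field_simp
    ring
  have hcount : ∀ n, (blockCount E B n : ℝ) - m * GG k n = ∑ j ∈ range n, u j := by
    intro n
    simp only [hu]
    rw [Finset.sum_sub_distrib, ← Finset.mul_sum, Finset.sum_boole, GG, blockCount]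
    congr 3
    ext i
    simp only [Finset.mem_filter, hiff]
  have h1 : Tendsto (fun n => (blockCount E B n : ℝ) / GG k n) atTop (𝓝 m) := by
    refine ratio_tendsto k _ m ((1 + m) * (TT t₀ + 1)) (fun n => ?_)
    rw [hcount]
    refine (zero_sum hub t₀ hz n).trans ?_
    rw [mul_assoc]
    apply mul_le_mul_of_nonneg_left _ (by positivity)
    have a1 : (0 : ℝ) ≤ LL (st n) := by positivity
    have a2 : (0 : ℝ) ≤ st n := by positivity
    have a3 : (0 : ℝ) ≤ TT t₀ := by positivity
    nlinarith [mul_nonneg a3 a1, mul_nonneg a3 a2]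
  have h2 := h1.div (qSum_ratio k) one_ne_zero
  rw [div_one] at h2
  refine h2.congr' ?_
  filter_upwards [(GG_tendsto k).eventually_gt_atTop 0] with n hn
  simp only [Pi.div_apply]
  rw [div_div_div_cancel_right₀ hn.ne']

theorem prescribed_orders (A : Set ℕ) :
    ∃ x : ℝ, ∀ k, 1 ≤ k → (NormalOfOrder qq k x ↔ k ∈ A) := by
  classical
  obtain ⟨E, hE1, hE2⟩ := exists_digits (fun k => if k ∈ A ∨ k = 0 then 0 else 1)
    (fun k => by split_ifs <;> omega) (by simp)
  obtain ⟨x, hx⟩ := expansion_exists qq_basic (E := E) (fun n => by have := hE1 n; omega)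
    (fun N => ⟨N, le_rfl, by have := hE1 N; omega⟩)
  refine ⟨x, fun k hk => ⟨?_, fun hA => ⟨E, hx, fun B => ?_⟩⟩⟩
  · rintro ⟨E', hx', h⟩
    rw [← expansion_unique qq_basic hx hx'] at h
    have := tendsto_nhds_unique (h (fun _ => 0)) (hE2 k hk (fun _ => 0))
    by_contra hA
    rw [if_neg (by rintro (h | h); exacts [hA h, by omega])] at this
    norm_num at this
  · have := hE2 k hk B
    rw [if_pos (Or.inl hA)] at this
    simpa using this

end Pool.Agent.MP_f007e6_nt

end
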